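import Mathlib
import Pool.Agent.H.MP_96ff56_al.A

set_option maxHeartbeats 400000

namespace Pool.Agent.H.MP_96ff56_al

open Module MvPolynomial

theorem van {ι κ W : Type*} [Fintype ι] [Fintype κ] [DecidableEq ι] [DecidableEq κ]
    [AddCommGroup W] [Module ℂ W] (e : Basis κ ℂ W)
    (u : MultilinearMap ℂ (fun _ : κ × ι => W) ℂ)
    (hπ : ∀ (π : κ → Equiv.Perm ι) (ξ : κ × ι → W), u (fun p => ξ (p.1, π p.1 p.2)) = u ξ)
    (hz : ∀ M : Matrix κ κ ℂ, M.det ≠ 0 → u (fun p => ∑ j, M p.1 j • e j) = 0) : u = 0 := by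
  classical
  let m : (κ × ι → κ) → (κ × κ →₀ ℕ) := fun J => ∑ p, Finsupp.single (p.1, J p) 1
  let P : MvPolynomial (κ × κ) ℂ := ∑ J : κ × ι → κ, monomial (m J) (u fun p => e (J p))
  have hP : ∀ x : κ × κ → ℂ, eval x P = u (fun p => ∑ j, x (p.1, j) • e j) := by
    intro x
    rw [u.map_sum (fun p j => x (p.1, j) • e j), map_sum]
    refine Finset.sum_congr rfl fun J _ => ?_
    rw [u.map_smul_univ, eval_monomial, smul_eq_mul, mul_comm]
    congr 1
    rw [← Finsupp.prod_finsetSum_index (fun _ => pow_zero _) (fun _ _ _ => pow_add _ _ _)]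
    refine Finset.prod_congr rfl fun p _ => ?_
    simp
  have h0 : P * (Matrix.mvPolynomialX κ κ ℂ).det = 0 := by
    refine MvPolynomial.funext fun x => ?_
    rw [map_mul, map_zero, hP, RingHom.map_det]
    by_cases hx : ((eval x).mapMatrix (Matrix.mvPolynomialX κ κ ℂ)).det = 0
    · rw [hx, mul_zero]
    · have := hz _ hx
      simp only [RingHom.mapMatrix_apply, Matrix.map_apply, Matrix.mvPolynomialX_apply,
        eval_X] at this
      rw [this, zero_mul]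
  have h1 : P = 0 := (mul_eq_zero.1 h0).resolve_right (Matrix.det_mvPolynomialX_ne_zero κ ℂ)
  refine Basis.ext_multilinear (fun _ => e) fun J => ?_
  have h2 : ∀ J', m J' = m J → u (fun p => e (J' p)) = u fun p => e (J p) := by
    intro J' h
    have hc : ∀ (K : κ × ι → κ) i j, m K (i, j) = Fintype.card {a // K (i, a) = j} := by
      intro K i j
      rw [Fintype.card_subtype, Finset.card_filter]
      simp only [m, Finsupp.finsetSum_apply, Finsupp.single_apply, Fintype.sum_prod_type,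
        Prod.mk.injEq]
      rw [Finset.sum_eq_single i]
      · simp
      · intro b _ hb
        simp [hb]
      · simp
    let π : κ → Equiv.Perm ι := fun i => Equiv.ofFiberEquiv (f := fun a => J' (i, a))
      (g := fun a => J (i, a)) fun j => Fintype.equivOfCardEq (by rw [← hc, ← hc, h])
    rw [← hπ π fun p => e (J p)]
    congr 1
    funext p
    congr 1
    exact (Equiv.ofFiberEquiv_map (f := fun a => J' (p.1, a)) (g := fun a => J (p.1, a)) _ p.2).symm
  have h3 := congrArg (coeff (m J)) h1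
  simp only [P, coeff_sum, coeff_monomial, coeff_zero] at h3
  rw [← Finset.sum_filter, Finset.sum_congr rfl (fun J' hJ' => h2 J' (Finset.mem_filter.1 hJ').2),
    Finset.sum_const, nsmul_eq_mul] at h3
  refine (mul_eq_zero.1 h3).resolve_left (Nat.cast_ne_zero.2 (Finset.card_ne_zero_of_mem
    (Finset.mem_filter.2 ⟨Finset.mem_univ J, rfl⟩)))

theorem van2 {V : Type*} [AddCommGroup V] [Module ℂ V] {d n : ℕ} (b : Basis (Fin n) ℂ V)
    (hd : Odd d) (hn : 2 ≤ n)
    (u : MultilinearMap ℂ (fun _ : Fin n × Fin d => Dual ℂ V) ℂ)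
    (hπ : ∀ (π : Fin n → Equiv.Perm (Fin d)) (ξ : Fin n × Fin d → Dual ℂ V),
      u (fun p => ξ (p.1, π p.1 p.2)) = u ξ)
    (hρ : ∀ (ρ : Equiv.Perm (Fin n)) (ξ : Fin n × Fin d → Dual ℂ V),
      u (fun p => ξ (ρ p.1, p.2)) = u ξ)
    (hg : ∀ (g : V ≃ₗ[ℂ] V) (ξ : Fin n × Fin d → Dual ℂ V),
      u (fun p => (g : V →ₗ[ℂ] V).dualMap (ξ p)) = LinearMap.det (g : V →ₗ[ℂ] V) ^ d * u ξ) :
    u = 0 := by
  have h1 : ∀ M : Matrix (Fin n) (Fin n) ℂ, M.det ≠ 0 →
      u (fun p => ∑ j, M p.1 j • b.dualBasis j) = M.det ^ d * u fun p => b.dualBasis p.1 := by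
    intro M hM
    have := hg (Matrix.toLinearEquiv b M hM.isUnit) fun p => b.dualBasis p.1
    have e1 : ((Matrix.toLinearEquiv b M hM.isUnit : V ≃ₗ[ℂ] V) : V →ₗ[ℂ] V) = Matrix.toLin b b M :=
      LinearMap.ext fun _ => rfl
    rw [e1, LinearMap.det_toLin] at this
    rw [← this]
    congr 1
    funext p
    refine b.ext fun j => ?_
    simp [Matrix.toLin_self, Finsupp.single_apply]
  let ρ : Equiv.Perm (Fin n) := Equiv.swap ⟨0, by omega⟩ ⟨1, by omega⟩
  have h2 : (ρ.permMatrix ℂ).det = -1 := by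
    rw [Matrix.det_permutation, Equiv.Perm.sign_swap (by simp)]
    simp
  have h3 := h1 (ρ.permMatrix ℂ) (by rw [h2]; norm_num)
  have h4 : (fun p : Fin n × Fin d => ∑ j, ρ.permMatrix ℂ p.1 j • b.dualBasis j) =
      fun p => b.dualBasis (ρ p.1) := by
    funext p
    simp [Equiv.Perm.permMatrix, PEquiv.toMatrix_apply]
  rw [h4, hρ ρ (fun p => b.dualBasis p.1), h2, hd.neg_one_pow] at h3
  refine van b.dualBasis u hπ fun M hM => ?_
  rw [h1 M hM, show (u fun p => b.dualBasis p.1) = 0 by linear_combination h3 / 2, mul_zero]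

theorem sym {ι κ W : Type*} [Fintype ι] [Fintype κ] [DecidableEq ι] [DecidableEq κ]
    [AddCommGroup W] [Module ℂ W] (t0 : MultilinearMap ℂ (fun _ : ι × κ => W) ℂ) :
    ∃ t : MultilinearMap ℂ (fun _ : ι × κ => W) ℂ,
      (∀ (σ : Equiv.Perm ι) (τ : ι → Equiv.Perm κ) (ξ : ι × κ → W),
        t (fun p => ξ (σ p.1, τ p.1 p.2)) = t ξ) ∧
      (∀ (g : W → W) (c : ℂ), (∀ ξ : ι × κ → W, t0 (fun p => g (ξ p)) = c * t0 ξ) →
        ∀ ξ : ι × κ → W, t (fun p => g (ξ p)) = c * t ξ) ∧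
      ∀ l : ι → W, (∀ φ : ι → ι, ¬ Function.Injective φ → t0 (fun p => l (φ p.1)) = 0) →
        t = 0 → ∑ φ : ι → ι, t0 (fun p => l (φ p.1)) = 0 := by
  let t : MultilinearMap ℂ (fun _ : ι × κ => W) ℂ :=
    ∑ σ : Equiv.Perm ι, ∑ τ : ι → Equiv.Perm κ, t0.domDomCongr (σ.prodShear τ)
  have ht : ∀ ξ, t ξ = ∑ σ : Equiv.Perm ι, ∑ τ : ι → Equiv.Perm κ,
      t0 fun p => ξ (σ p.1, τ p.1 p.2) := by
    intro ξ
    simp only [t, MultilinearMap.sum_apply]
    rfl
  refine ⟨t, fun σ' τ' ξ => ?_, fun g c hg ξ => ?_, fun l hl h => ?_⟩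
  · rw [ht, ht, ← Equiv.sum_comp (Equiv.mulLeft σ') fun σ => ∑ τ : ι → Equiv.Perm κ,
      t0 fun p => ξ (σ p.1, τ p.1 p.2)]
    refine Finset.sum_congr rfl fun σ _ => ?_
    exact Equiv.sum_comp (Equiv.mulLeft fun a => τ' (σ a))
      fun τ : ι → Equiv.Perm κ => t0 fun p => ξ (σ' (σ p.1), τ p.1 p.2)
  · simp only [ht, Finset.mul_sum]
    exact Finset.sum_congr rfl fun σ _ => Finset.sum_congr rfl fun τ _ => hg _
  · have h2 := ht fun p => l p.1
    simp only [h, MultilinearMap.zero_apply, Finset.sum_const, ← Finset.smul_sum] at h2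
    rw [Fintype.sum_of_injective (fun σ : Equiv.Perm ι => (σ : ι → ι))
      DFunLike.coe_injective _ (fun φ => t0 fun p => l (φ p.1))
      (fun φ hφ => hl φ fun hi =>
        hφ ⟨Equiv.ofBijective φ (Finite.injective_iff_bijective.1 hi), rfl⟩) (fun _ => rfl),
      eq_comm, smul_eq_zero] at h2
    exact h2.resolve_left (Finset.card_ne_zero_of_mem (Finset.mem_univ 1))

theorem prodDet {ι κ W : Type*} [Fintype ι] [Fintype κ] [DecidableEq ι] [DecidableEq κ]
    [AddCommGroup W] [Module ℂ W] (e : Basis κ ℂ W) (x : κ → Equiv.Perm ι) :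
    ∃ t0 : MultilinearMap ℂ (fun _ : ι × κ => W) ℂ,
      ∀ ξ, t0 ξ = ∏ c, e.det fun r => ξ (x r c, r) :=
  ⟨((MultilinearMap.mkPiAlgebra ℂ ι ℂ).compMultilinearMap
      (N := fun _ _ => W) fun _ => e.det.toMultilinearMap).domDomCongr
      ((Equiv.sigmaEquivProd _ _).trans (Equiv.prodCongrLeft x)), fun _ => rfl⟩

/-- a difference set complement -/
def x4 : Fin 4 → Fin 7 := ![0, 3, 5, 6]

/-- reordering -/
def w7 : Fin 7 → Fin 7 := ![0, 4, 6, 1, 5, 2, 3]

theorem h5 : ∀ a a' : Fin 7, a ≠ a' → ∃ c r s, r ≠ s ∧ c + x4 r = a ∧ c + x4 s = a' := by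
  decide

theorem h6 (φ : Fin 7 → Fin 7) : ∏ c, D (φ (w7 (c + x4 0))) (φ (w7 (c + x4 1)))
    (φ (w7 (c + x4 2))) (φ (w7 (c + x4 3))) = F (φ 0) (φ 4) (φ 6) (φ 1) (φ 5) (φ 2) (φ 3) := by
  simp only [Fin.prod_univ_succ, Fin.prod_univ_zero, mul_one]
  rfl

theorem exi {V : Type*} [AddCommGroup V] [Module ℂ V] (b : Basis (Fin 4) ℂ V) :
    ∃ t : MultilinearMap ℂ (fun _ : Fin 7 × Fin 4 => Dual ℂ V) ℂ,
      (∀ (σ : Equiv.Perm (Fin 7)) (τ : Fin 7 → Equiv.Perm (Fin 4)) (ξ : Fin 7 × Fin 4 → Dual ℂ V),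
        t (fun p => ξ (σ p.1, τ p.1 p.2)) = t ξ) ∧
      (∀ (g : V →ₗ[ℂ] V) (ξ : Fin 7 × Fin 4 → Dual ℂ V),
        t (fun p => g.dualMap (ξ p)) = LinearMap.det g ^ 7 * t ξ) ∧ t ≠ 0 := by
  haveI := Module.Finite.of_basis b
  obtain ⟨t0, h0⟩ := prodDet b.dualBasis fun r => Equiv.addRight (x4 r)
  obtain ⟨t, t1, t2, t3⟩ := sym t0
  refine ⟨t, t1, fun g => t2 _ _ fun ξ => ?_, fun h => ?_⟩
  · rw [h0, h0, ← LinearMap.det_dualMap, ← Fin.prod_const, ← Finset.prod_mul_distrib]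
    exact Finset.prod_congr rfl fun c _ => b.dualBasis.det_comp g.dualMap _
  · let l : Fin 7 → Dual ℂ V := fun a => ∑ j, (L a j : ℂ) • b.dualBasis j
    have h1 : ∀ y : Fin 4 → Fin 7, b.dualBasis.det (fun r => l (y r)) =
        (D (y 0) (y 1) (y 2) (y 3) : ℂ) := by
      intro y
      have e1 : d4 (L (y 0)) (L (y 1)) (L (y 2)) (L (y 3)) = (Matrix.of fun r j => L (y r) j).det :=
        (det4 (Matrix.of fun r j => L (y r) j)).symm
      rw [← hD, e1, Basis.det_apply, ← Matrix.det_transpose, Int.cast_det]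
      refine congrArg Matrix.det ?_
      ext r j
      simp [l, Basis.toMatrix_apply, Finsupp.single_apply]
    clear_value l
    have h2 := t3 l (fun φ h4 => ?_) h
    · rw [← (Function.Bijective.comp_right (show Function.Bijective w7 by decide)).sum_comp] at h2
      have h3 : ∀ φ : Fin 7 → Fin 7, (t0 fun p => l ((φ ∘ w7) p.1)) =
          (F (φ 0) (φ 4) (φ 6) (φ 1) (φ 5) (φ 2) (φ 3) : ℂ) := by
        intro φ
        rw [h0, ← h6, Int.cast_prod]
        exact Finset.prod_congr rfl fun c _ => h1 fun r => φ (w7 (c + x4 r))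
      rw [Finset.sum_congr rfl fun φ _ => h3 φ, ← Int.cast_sum, hS] at h2
      norm_num at h2
    · obtain ⟨a, a', e1, e2⟩ := Function.not_injective_iff.1 h4
      obtain ⟨c, r, s, h6, rfl, h7⟩ := h5 a a' e2
      rw [h0]
      refine Finset.prod_eq_zero (Finset.mem_univ c) (b.dualBasis.det.map_eq_zero_of_eq _ ?_ h6)
      show l (φ (c + x4 r)) = l (φ (c + x4 s))
      rw [h7, e1]

end Pool.Agent.H.MP_96ff56_al
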